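import Mathlib

/-!
# MP_f11a48_ag, PROJECT S0, part POL: diagonalisation

`K` a number field with a complex conjugation `c`. For `η` totally positive and fixed by `c` there
are `b_j ∈ K` and rational `w_j > 0` with `∑ w_j s(b_j) s'(b_j) = s(η)` if `s'` is the conjugate of `s`
and `= 0` otherwise: the form `Tr(η x c(y))` has an orthogonal basis over `ℚ`.
-/

set_option autoImplicit false

open ComplexConjugate

namespace Pool.Agent.Lib.MPf11a48.SH.POL

variable {K : Type} [Field K] [NumberField K]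

/-- the trace as the sum over the embeddings -/
theorem trace_sum (x : K) : ((Algebra.trace ℚ K x : ℚ) : ℂ) = ∑ s : K →+* ℂ, s x := by
  have h := trace_eq_sum_embeddings (K := ℚ) (L := K) (x := x) ℂ
  rw [eq_ratCast] at h
  rw [h]
  exact (Fintype.sum_equiv (RingHom.equivRatAlgHom K ℂ) (fun s : K →+* ℂ => s x)
    (fun s : K →ₐ[ℚ] ℂ => s x) (fun _ => rfl)).symm

/-- the conjugate embedding -/
noncomputable def bar (s : K →+* ℂ) : K →+* ℂ := (starRingEnd ℂ).comp s

omit [NumberField K] in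
@[simp] theorem bar_apply (s : K →+* ℂ) (x : K) : bar s x = conj (s x) := rfl

omit [NumberField K] in
@[simp] theorem bar_bar (s : K →+* ℂ) : bar (bar s) = s := by
  ext x
  simp [bar]

omit [NumberField K] in
theorem bar_inj {s s' : K →+* ℂ} (h : bar s = bar s') : s = s' := by
  rw [← bar_bar s, h, bar_bar]

/-- the bilinear form `Tr(η x c(y))` -/
noncomputable def form (c : K →+* K) (η : K) : LinearMap.BilinForm ℚ K :=
  (Algebra.traceForm ℚ K).compl₁₂ (LinearMap.mulLeft ℚ η) c.toRatAlgHom.toLinearMap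

theorem form_apply (c : K →+* K) (η x y : K) :
    form c η x y = Algebra.trace ℚ K (η * x * c y) := rfl

theorem form_sum {c : K →+* K} (hc : ∀ (s : K →+* ℂ) x, s (c x) = conj (s x)) (η x y : K) :
    ((form c η x y : ℚ) : ℂ) = ∑ s : K →+* ℂ, s η * s x * conj (s y) := by
  rw [form_apply, trace_sum]
  refine Finset.sum_congr rfl fun s _ => ?_
  rw [map_mul, map_mul, hc]

theorem sum_bar {M : Type} [AddCommMonoid M] (f : (K →+* ℂ) → M) :
    ∑ s, f (bar s) = ∑ s, f s :=
  Fintype.sum_equiv (Equiv.mk bar bar bar_bar bar_bar) _ _ fun _ => rfl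

theorem form_symm {c : K →+* K} (hc : ∀ (s : K →+* ℂ) x, s (c x) = conj (s x)) {η : K}
    (hη : ∀ s : K →+* ℂ, 0 < (s η).re ∧ (s η).im = 0) (x y : K) :
    form c η x y = form c η y x := by
  have h : ((form c η x y : ℚ) : ℂ) = ((form c η y x : ℚ) : ℂ) := by
    rw [form_sum hc, form_sum hc, ← sum_bar]
    refine Finset.sum_congr rfl fun s _ => ?_
    have h1 : conj (s η) = s η := Complex.conj_eq_iff_im.2 (hη s).2
    rw [bar_apply, bar_apply, bar_apply, h1, Complex.conj_conj]
    ring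
  exact_mod_cast h

theorem form_pos {c : K →+* K} (hc : ∀ (s : K →+* ℂ) x, s (c x) = conj (s x)) {η : K}
    (hη : ∀ s : K →+* ℂ, 0 < (s η).re ∧ (s η).im = 0) {x : K} (hx : x ≠ 0) :
    0 < form c η x x := by
  have h : ((form c η x x : ℚ) : ℂ) = ((∑ s : K →+* ℂ, (s η).re * Complex.normSq (s x) : ℝ) : ℂ) := by
    rw [form_sum hc, Complex.ofReal_sum]
    refine Finset.sum_congr rfl fun s _ => ?_
    have h1 : s η = (((s η).re : ℝ) : ℂ) := by
      apply Complex.ext
      · simp
      · simp [(hη s).2]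
    rw [mul_assoc, Complex.mul_conj, Complex.ofReal_mul, ← h1]
  have h2 : ((form c η x x : ℚ) : ℝ) = ∑ s : K →+* ℂ, (s η).re * Complex.normSq (s x) := by
    exact_mod_cast h
  have h3 : 0 < ∑ s : K →+* ℂ, (s η).re * Complex.normSq (s x) := by
    refine Finset.sum_pos (fun s _ => mul_pos (hη s).1 (Complex.normSq_pos.2 ?_)) ?_
    · exact (map_ne_zero s).2 hx
    · exact Finset.univ_nonempty
  rw [← h2] at h3
  exact_mod_cast h3

/-- **P1** -/
theorem exists_diag {c : K →+* K} (hc : ∀ (s : K →+* ℂ) x, s (c x) = conj (s x)) (η : K)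
    (hη : ∀ s : K →+* ℂ, 0 < (s η).re ∧ (s η).im = 0) :
    ∃ (n : ℕ) (b : Fin n → K) (w : Fin n → ℚ), (∀ j, 0 < w j) ∧
      (∀ s : K →+* ℂ, ∑ j, (w j : ℂ) * conj (s (b j)) * s (b j) = s η) ∧
      ∀ s s' : K →+* ℂ, s ≠ s' → ∑ j, (w j : ℂ) * conj (s (b j)) * s' (b j) = 0 := by
  classical
  obtain ⟨v, hv⟩ := LinearMap.BilinForm.exists_orthogonal_basis (B := form c η)
    ⟨fun x y => form_symm hc hη x y⟩
  have hr : ∀ l, 0 < form c η (v l) (v l) := fun l => form_pos hc hη (v.ne_zero l)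
  let M : Matrix (K →+* ℂ) (Fin (Module.finrank ℚ K)) ℂ := fun s l => s (v l)
  let A : Matrix (Fin (Module.finrank ℚ K)) (K →+* ℂ) ℂ := fun l s => s (v l) * s η
  let B : Matrix (K →+* ℂ) (Fin (Module.finrank ℚ K)) ℂ := fun s l =>
    conj (s (v l)) * ((form c η (v l) (v l) : ℚ) : ℂ)⁻¹
  have hAB : A * B = 1 := by
    ext k l
    rw [Matrix.mul_apply]
    have h1 : ∑ s, A k s * B s l = ((form c η (v k) (v l) : ℚ) : ℂ) *
        ((form c η (v l) (v l) : ℚ) : ℂ)⁻¹ := by
      rw [form_sum hc, Finset.sum_mul]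
      refine Finset.sum_congr rfl fun s _ => ?_
      simp only [A, B]
      ring
    rw [h1]
    by_cases hkl : k = l
    · subst hkl
      rw [Matrix.one_apply_eq, mul_inv_cancel₀]
      exact_mod_cast (hr k).ne'
    · rw [Matrix.one_apply_ne hkl]
      have h2 : form c η (v k) (v l) = 0 := hv hkl
      rw [h2, Rat.cast_zero, zero_mul]
  have hBA : B * A = 1 := by
    refine (Matrix.mul_eq_one_comm_of_card_eq _ _ _ ?_).1 hAB
    rw [NumberField.Embeddings.card K ℂ, Fintype.card_fin]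
  have hη' : ∀ s : K →+* ℂ, conj (s η) = s η := fun s => Complex.conj_eq_iff_im.2 (hη s).2
  have hη0 : ∀ s : K →+* ℂ, s η ≠ 0 := by
    intro s h
    have := (hη s).1
    rw [h] at this
    simp at this
  have key : ∀ s s' : K →+* ℂ, ∑ j, ((form c η (v j) (v j))⁻¹ : ℚ) * conj (s (η * v j)) *
      s' (η * v j) = conj (s η) * (B * A) s s' := by
    intro s s'
    rw [Matrix.mul_apply, Finset.mul_sum]
    refine Finset.sum_congr rfl fun j _ => ?_
    simp only [A, B, map_mul, Rat.cast_inv]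
    ring
  refine ⟨_, fun l => η * v l, fun l => (form c η (v l) (v l))⁻¹, fun l => inv_pos.2 (hr l), ?_, ?_⟩
  · intro s
    rw [key s s, hBA, Matrix.one_apply_eq, mul_one, hη']
  · intro s s' hs
    rw [key s s', hBA, Matrix.one_apply_ne hs, mul_zero]

end Pool.Agent.Lib.MPf11a48.SH.POL
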