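import Pool.Agent.Lib.MP_f11a48_ag.U.Hda

/-!
# MP_f11a48_ag, PROJECT S0, part POL: the Riemann form as the imaginary part of a hermitian form

`ee u v` is the real form of an abelian variety on the tangent space, `hh u v = ee u (i v) + i ee u v`,
antilinear in `u` and linear in `v`.
-/

set_option autoImplicit false

open Matrix ComplexConjugate Pool.Agent.Lib.MPf11a48.CM Pool.Agent.Lib.MPf11a48.U
open Pool.Agent.Lib.MPf11a48.U.HDAM

namespace Pool.Agent.Lib.MPf11a48.SH.POL

variable {K₀ : IntermediateField ℚ ℂ} {g N : ℕ} {A : AbData g N}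

/-- the real coordinates of a vector of the tangent space -/
noncomputable def co (hA : A.IsAbVar K₀) (u : Fin g → ℂ) : Ix g → ℝ :=
  fun l => (bas A.lat hA.lat_indep).repr u l

theorem co_add (hA : A.IsAbVar K₀) (u v : Fin g → ℂ) : co hA (u + v) = co hA u + co hA v := by
  funext l
  simp [co]

theorem co_smul (hA : A.IsAbVar K₀) (r : ℝ) (u : Fin g → ℂ) : co hA (r • u) = r • co hA u := by
  funext l
  simp [co]

theorem Lv_co (hA : A.IsAbVar K₀) (u : Fin g → ℂ) : Lv A (co hA u) = u := by
  unfold Lv co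
  simp only [real_smul]
  have := (bas A.lat hA.lat_indep).sum_repr u
  simpa only [bas_apply] using this

theorem co_Lv (hA : A.IsAbVar K₀) (x : Ix g → ℝ) : co hA (Lv A x) = x :=
  ind_real hA.lat_indep (Lv_co hA (Lv A x))

theorem co_I (hA : A.IsAbVar K₀) (u : Fin g → ℂ) :
    co hA (Complex.I • u) = co hA u ᵥ* JM A.lat hA.lat_indep := by
  have h := Lv_J hA (co hA u)
  rw [Lv_co] at h
  rw [← h, co_Lv]

/-- the real form -/
noncomputable def ee (hA : A.IsAbVar K₀) (u v : Fin g → ℂ) : ℝ :=
  co hA u ⬝ᵥ (ER A *ᵥ co hA v)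

theorem ee_add_left (hA : A.IsAbVar K₀) (u u' v : Fin g → ℂ) :
    ee hA (u + u') v = ee hA u v + ee hA u' v := by
  rw [ee, co_add, add_dotProduct]
  rfl

theorem ee_add_right (hA : A.IsAbVar K₀) (u v v' : Fin g → ℂ) :
    ee hA u (v + v') = ee hA u v + ee hA u v' := by
  rw [ee, co_add, mulVec_add, dotProduct_add]
  rfl

theorem ee_smul_left (hA : A.IsAbVar K₀) (r : ℝ) (u v : Fin g → ℂ) :
    ee hA (r • u) v = r * ee hA u v := by
  rw [ee, co_smul, smul_dotProduct, smul_eq_mul]
  rfl

theorem ee_smul_right (hA : A.IsAbVar K₀) (r : ℝ) (u v : Fin g → ℂ) :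
    ee hA u (r • v) = r * ee hA u v := by
  rw [ee, co_smul, mulVec_smul, dotProduct_smul, smul_eq_mul]
  rfl

theorem ee_skew (hA : A.IsAbVar K₀) (u v : Fin g → ℂ) : ee hA v u = -ee hA u v := by
  have h := ER_skew hA
  unfold ee
  rw [dotProduct_mulVec, ← mulVec_transpose, h, neg_mulVec, neg_dotProduct, dotProduct_comm]

theorem ee_self (hA : A.IsAbVar K₀) (u : Fin g → ℂ) : ee hA u u = 0 := by
  have := ee_skew hA u u
  linarith

theorem ee_I (hA : A.IsAbVar K₀) (u v : Fin g → ℂ) :
    ee hA (Complex.I • u) (Complex.I • v) = ee hA u v := by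
  have h := E_J hA
  unfold ee
  rw [co_I, co_I, ← mulVec_transpose (JM A.lat hA.lat_indep) (co hA v), mulVec_mulVec,
    ← dotProduct_mulVec, mulVec_mulVec, ← Matrix.mul_assoc, h]

theorem ee_I_left (hA : A.IsAbVar K₀) (u v : Fin g → ℂ) :
    ee hA (Complex.I • u) v = -ee hA u (Complex.I • v) := by
  have h := ee_I hA u (Complex.I • v)
  rw [smul_smul, Complex.I_mul_I, neg_one_smul] at h
  have h2 : ee hA (Complex.I • u) (-v) = -ee hA (Complex.I • u) v := by
    have := ee_smul_right hA (-1) (Complex.I • u) v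
    rw [neg_one_smul, neg_one_mul] at this
    exact this
  rw [← h, h2, neg_neg]

theorem ee_pos (hA : A.IsAbVar K₀) {u : Fin g → ℂ} (hu : u ≠ 0) :
    0 < ee hA u (Complex.I • u) := by
  have hx : co hA u ≠ 0 := by
    intro h
    apply hu
    rw [← Lv_co hA u, h]
    simp [Lv]
  have h := pos_E hA (co hA u) hx
  rw [← co_I] at h
  exact h

/-- the hermitian form -/
noncomputable def hh (hA : A.IsAbVar K₀) (u v : Fin g → ℂ) : ℂ :=
  (ee hA u (Complex.I • v) : ℂ) + Complex.I * (ee hA u v : ℂ)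

theorem hh_im (hA : A.IsAbVar K₀) (u v : Fin g → ℂ) : (hh hA u v).im = ee hA u v := by
  simp [hh]

theorem hh_self (hA : A.IsAbVar K₀) (u : Fin g → ℂ) :
    hh hA u u = (ee hA u (Complex.I • u) : ℂ) := by
  rw [hh, ee_self]
  simp

theorem hh_add_left (hA : A.IsAbVar K₀) (u u' v : Fin g → ℂ) :
    hh hA (u + u') v = hh hA u v + hh hA u' v := by
  unfold hh
  rw [ee_add_left, ee_add_left]
  push_cast
  ring

theorem hh_add_right (hA : A.IsAbVar K₀) (u v v' : Fin g → ℂ) :
    hh hA u (v + v') = hh hA u v + hh hA u v' := by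
  unfold hh
  rw [smul_add, ee_add_right, ee_add_right]
  push_cast
  ring

theorem hh_smul_right (hA : A.IsAbVar K₀) (t : ℂ) (u v : Fin g → ℂ) :
    hh hA u (t • v) = t * hh hA u v := by
  have h1 : t • v = t.re • v + t.im • (Complex.I • v) := by
    funext k
    simp only [Pi.smul_apply, Pi.add_apply, smul_eq_mul, Complex.real_smul]
    conv_lhs => rw [← Complex.re_add_im t]
    ring
  have h2 : Complex.I • t • v = t.re • (Complex.I • v) + (-t.im) • v := by
    funext k
    simp only [Pi.smul_apply, Pi.add_apply, smul_eq_mul, Complex.real_smul]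
    conv_lhs => rw [← Complex.re_add_im t]
    push_cast
    linear_combination (t.im : ℂ) * v k * Complex.I_mul_I
  unfold hh
  rw [h2, ee_add_right, ee_smul_right, ee_smul_right, h1, ee_add_right, ee_smul_right,
    ee_smul_right]
  push_cast
  conv_rhs => rw [← Complex.re_add_im t]
  linear_combination (-(t.im : ℂ)) * (ee hA u v : ℂ) * Complex.I_mul_I

theorem hh_smul_left (hA : A.IsAbVar K₀) (t : ℂ) (u v : Fin g → ℂ) :
    hh hA (t • u) v = conj t * hh hA u v := by
  have h1 : t • u = t.re • u + t.im • (Complex.I • u) := by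
    funext k
    simp only [Pi.smul_apply, Pi.add_apply, smul_eq_mul, Complex.real_smul]
    conv_lhs => rw [← Complex.re_add_im t]
    ring
  have h3 : conj t = (t.re : ℂ) - t.im * Complex.I := by
    apply Complex.ext <;> simp
  unfold hh
  rw [h1, ee_add_left, ee_smul_left, ee_smul_left, ee_add_left, ee_smul_left, ee_smul_left,
    ee_I, ee_I_left, h3]
  push_cast
  linear_combination (t.im : ℂ) * (ee hA u v : ℂ) * Complex.I_mul_I

theorem hh_sum_left (hA : A.IsAbVar K₀) {ι : Type} (s : Finset ι) (f : ι → Fin g → ℂ)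
    (v : Fin g → ℂ) : hh hA (∑ i ∈ s, f i) v = ∑ i ∈ s, hh hA (f i) v := by
  classical
  induction s using Finset.induction_on with
  | empty =>
    have := hh_smul_left hA 0 0 v
    rw [zero_smul, map_zero, zero_mul] at this
    simpa using this
  | insert a s ha ih => rw [Finset.sum_insert ha, Finset.sum_insert ha, hh_add_left, ih]

theorem hh_sum_right (hA : A.IsAbVar K₀) {ι : Type} (s : Finset ι) (f : ι → Fin g → ℂ)
    (u : Fin g → ℂ) : hh hA u (∑ i ∈ s, f i) = ∑ i ∈ s, hh hA u (f i) := by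
  classical
  induction s using Finset.induction_on with
  | empty =>
    have := hh_smul_right hA 0 u 0
    rw [zero_smul, zero_mul] at this
    simpa using this
  | insert a s ha ih => rw [Finset.sum_insert ha, Finset.sum_insert ha, hh_add_right, ih]

/-- the value on rational points of the lattice -/
theorem ee_rat (hA : A.IsAbVar K₀) (x y : Ix g → ℚ) :
    ee hA (∑ m, (x m : ℂ) • A.lat m) (∑ m, (y m : ℂ) • A.lat m) =
      ((∑ m, ∑ m', x m * (A.E m m' : ℚ) * y m' : ℚ) : ℝ) := by
  have h : ∀ x : Ix g → ℚ, ∑ m, (x m : ℂ) • A.lat m = Lv A (fun m => ((x m : ℚ) : ℝ)) := by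
    intro x
    unfold Lv
    refine Finset.sum_congr rfl fun m _ => ?_
    rw [Complex.ofReal_ratCast]
  rw [h, h, ee, co_Lv, co_Lv]
  push_cast
  simp only [dotProduct, Matrix.mulVec, ER, Matrix.map_apply, Finset.mul_sum, mul_assoc]

end Pool.Agent.Lib.MPf11a48.SH.POL
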