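import Pool.Agent.Lib.MP_f11a48_ag.SH.POL.Diag
import Pool.Agent.Lib.MP_f11a48_ag.SH.POL.Herm

/-!
# MP_f11a48_ag, PROJECT S0, part POL: averages of the Riemann form

Let `j(z) = ∑_{s ∈ Φ} s(z) Y_s` map `K` into the rational points of the lattice of `A`, `Φ` a CM type.
For every `δ` with `c(δ) = - δ` and `Im s(δ) > 0` on `Φ` there are `b_l ∈ K` and rational `w_l > 0` with
`∑ w_l E_A(j(b_l z), j(b_l z')) = Tr(δ z c(z'))`.
-/

set_option autoImplicit false

open Matrix ComplexConjugate Pool.Agent.Lib.MPf11a48.CM Pool.Agent.Lib.MPf11a48.U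
open Pool.Agent.Lib.MPf11a48.U.HDAM

namespace Pool.Agent.Lib.MPf11a48.SH.POL

variable {K : Type} [Field K] [NumberField K]
variable {K₀ : IntermediateField ℚ ℂ} {g N : ℕ} {A : AbData g N}

omit [NumberField K] in
/-- sums of the real form over a diagonal family -/
theorem sum_ee (hA : A.IsAbVar K₀) (Φ : Finset (K →+* ℂ)) (Y : (K →+* ℂ) → Fin g → ℂ) {n : ℕ}
    (b : Fin n → K) (w : Fin n → ℚ) (η : K)
    (h1 : ∀ s : K →+* ℂ, ∑ j, (w j : ℂ) * conj (s (b j)) * s (b j) = s η)
    (h2 : ∀ s s' : K →+* ℂ, s ≠ s' → ∑ j, (w j : ℂ) * conj (s (b j)) * s' (b j) = 0) (z z' : K) :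
    ∑ j, (w j : ℝ) * ee hA (∑ s ∈ Φ, s (b j * z) • Y s) (∑ s ∈ Φ, s (b j * z') • Y s) =
      (∑ s ∈ Φ, s η * conj (s z) * s z' * hh hA (Y s) (Y s)).im := by
  classical
  have hC : ∑ j, (w j : ℂ) * hh hA (∑ s ∈ Φ, s (b j * z) • Y s) (∑ s ∈ Φ, s (b j * z') • Y s) =
      ∑ s ∈ Φ, s η * conj (s z) * s z' * hh hA (Y s) (Y s) := by
    have h3 : ∀ j, (w j : ℂ) * hh hA (∑ s ∈ Φ, s (b j * z) • Y s) (∑ s ∈ Φ, s (b j * z') • Y s) =
        ∑ s ∈ Φ, ∑ s' ∈ Φ, (conj (s z) * s' z' * hh hA (Y s) (Y s')) *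
          ((w j : ℂ) * conj (s (b j)) * s' (b j)) := by
      intro j
      rw [hh_sum_left, Finset.mul_sum]
      refine Finset.sum_congr rfl fun s _ => ?_
      rw [hh_sum_right, Finset.mul_sum]
      refine Finset.sum_congr rfl fun s' _ => ?_
      rw [hh_smul_left, hh_smul_right, map_mul, map_mul, map_mul]
      ring
    rw [Finset.sum_congr rfl fun j _ => h3 j, Finset.sum_comm]
    refine Finset.sum_congr rfl fun s hs => ?_
    rw [Finset.sum_comm]
    rw [Finset.sum_eq_single s]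
    · rw [← Finset.mul_sum, h1]
      ring
    · intro s' _ hs'
      rw [← Finset.mul_sum, h2 s s' (Ne.symm hs'), mul_zero]
    · intro h
      exact absurd hs h
  rw [← hC, Complex.im_sum]
  refine Finset.sum_congr rfl fun j _ => ?_
  have h4 : ((w j : ℚ) : ℂ) = (((w j : ℚ) : ℝ) : ℂ) := by push_cast; rfl
  rw [h4, Complex.im_ofReal_mul, hh_im]

/-- the trace of an element with imaginary values -/
theorem trace_im {c : K →+* K} (hc : ∀ (s : K →+* ℂ) x, s (c x) = conj (s x))
    (Φ : Finset (K →+* ℂ)) (hΦ : ∀ s, bar s ∈ Φ ↔ s ∉ Φ) {δ : K} (hδ : c δ = -δ) (z z' : K) :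
    ((Algebra.trace ℚ K (δ * z * c z') : ℚ) : ℝ) =
      (∑ s ∈ Φ, ((2 * (s δ).im : ℝ) : ℂ) * (conj (s z) * s z')).im := by
  classical
  have h0 : ((Algebra.trace ℚ K (δ * z * c z') : ℚ) : ℂ) =
      ((∑ s ∈ Φ, ((2 * (s δ).im : ℝ) : ℂ) * (conj (s z) * s z')).im : ℂ) := by
    rw [trace_sum, ← Finset.sum_filter_add_sum_filter_not Finset.univ (fun s => s ∈ Φ)]
    have h1 : Finset.univ.filter (fun s => s ∈ Φ) = Φ := by ext s; simp
    have h2 : ∑ s ∈ Finset.univ.filter (fun s => s ∉ Φ), s (δ * z * c z') =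
        ∑ s ∈ Φ, (bar s) (δ * z * c z') := by
      refine Finset.sum_nbij' (fun s => bar s) (fun s => bar s) ?_ ?_ ?_ ?_ ?_
      · intro s hs
        rw [Finset.mem_filter] at hs
        exact (hΦ s).2 hs.2
      · intro s hs
        rw [Finset.mem_filter]
        refine ⟨Finset.mem_univ _, fun h => ?_⟩
        exact (hΦ s).1 h hs
      · intro s _
        exact bar_bar s
      · intro s _
        exact bar_bar s
      · intro s _
        rw [bar_bar]
    rw [h1, h2, ← Finset.sum_add_distrib, Complex.im_sum, Complex.ofReal_sum]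
    refine Finset.sum_congr rfl fun s _ => ?_
    have h3 : conj (s δ) = -s δ := by rw [← hc, hδ, map_neg]
    have h4 : s δ = ((s δ).im : ℂ) * Complex.I := by
      apply Complex.ext
      · have := congrArg Complex.re h3
        rw [Complex.conj_re, Complex.neg_re] at this
        simp
        linarith
      · simp
    rw [bar_apply, Complex.im_ofReal_mul]
    have h5 : s (δ * z * c z') = s δ * (s z * conj (s z')) := by
      rw [map_mul, map_mul, hc]; ring
    rw [h5, h4]
    apply Complex.ext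
    · simp
      ring
    · simp
  exact_mod_cast h0

/-- a rational functional is a trace -/
theorem exists_trace (f : K → ℝ) (hadd : ∀ x y, f (x + y) = f x + f y)
    (hrat : ∀ x, ∃ q : ℚ, f x = q) : ∃ δ : K, ∀ x, f x = (Algebra.trace ℚ K (δ * x) : ℚ) := by
  choose q hq using hrat
  have hq2 : ∀ x y, q (x + y) = q x + q y := by
    intro x y
    have := hadd x y
    rw [hq, hq, hq] at this
    exact_mod_cast this
  let φ : K →ₗ[ℚ] ℚ := (AddMonoidHom.mk' q hq2).toRatLinearMap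
  have hnd := traceForm_nondegenerate ℚ K
  obtain ⟨δ, hδ⟩ := (LinearMap.BilinForm.toDual (Algebra.traceForm ℚ K) hnd).surjective φ
  refine ⟨δ, fun x => ?_⟩
  rw [hq]
  have h1 : φ x = Algebra.traceForm ℚ K δ x := by
    rw [← hδ]
    rfl
  have h2 : q x = φ x := rfl
  rw [h2, h1]
  rfl

/-- the Riemann form on rational vectors -/
def rf (A : AbData g N) (x y : Ix g → ℚ) : ℚ := ∑ m, ∑ m', x m * (A.E m m' : ℚ) * y m'

/-- **AVG** -/
theorem avg {c : K →+* K} (hc : ∀ (s : K →+* ℂ) x, s (c x) = conj (s x)) (hA : A.IsAbVar K₀)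
    (Φ : Finset (K →+* ℂ)) (hΦ : ∀ s, bar s ∈ Φ ↔ s ∉ Φ) (Y : (K →+* ℂ) → Fin g → ℂ)
    (hY : ∀ s ∈ Φ, Y s ≠ 0) (X : K → Ix g → ℚ)
    (hX : ∀ z, ∑ s ∈ Φ, s z • Y s = ∑ m, (X z m : ℂ) • A.lat m) (δ : K) (hδ : c δ = -δ)
    (hδ' : ∀ s ∈ Φ, 0 < (s δ).im) :
    ∃ (n : ℕ) (b : Fin n → K) (w : Fin n → ℚ), (∀ j, 0 < w j) ∧
      ∀ z z', ∑ j, w j * rf A (X (b j * z)) (X (b j * z')) = Algebra.trace ℚ K (δ * z * c z') := by
  classical
  set H : (K →+* ℂ) → ℝ := fun s => ee hA (Y s) (Complex.I • Y s) with hH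
  have hH0 : ∀ s ∈ Φ, 0 < H s := fun s hs => ee_pos hA (hY s hs)
  have hHh : ∀ s, hh hA (Y s) (Y s) = (H s : ℂ) := fun s => hh_self hA (Y s)
  have hrf : ∀ z z', ee hA (∑ s ∈ Φ, s z • Y s) (∑ s ∈ Φ, s z' • Y s) = (rf A (X z) (X z') : ℝ) := by
    intro z z'
    rw [hX, hX, ee_rat]
    rfl
  -- the general sum
  have hsum : ∀ (η : K) (n : ℕ) (b : Fin n → K) (w : Fin n → ℚ),
      (∀ s : K →+* ℂ, ∑ j, (w j : ℂ) * conj (s (b j)) * s (b j) = s η) →
      (∀ s s' : K →+* ℂ, s ≠ s' → ∑ j, (w j : ℂ) * conj (s (b j)) * s' (b j) = 0) → ∀ z z',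
      ((∑ j, w j * rf A (X (b j * z)) (X (b j * z')) : ℚ) : ℝ) =
        (∑ s ∈ Φ, s η * conj (s z) * s z' * (H s : ℂ)).im := by
    intro η n b w h1 h2 z z'
    have h3 := sum_ee hA Φ Y b w η h1 h2 z z'
    simp only [hHh] at h3
    rw [Rat.cast_sum, ← h3]
    refine Finset.sum_congr rfl fun j _ => ?_
    rw [hrf]
    push_cast
    rfl
  -- the functional of the sum for `1`
  obtain ⟨n1, b1, w1, -, h11, h12⟩ := exists_diag hc (1 : K) (fun s => by simp)
  have hone := hsum 1 n1 b1 w1 h11 h12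
  obtain ⟨δ₁, hδ₁⟩ := exists_trace (K := K)
    (fun x => -(∑ s ∈ Φ, s (1 : K) * conj (s 1) * s x * (H s : ℂ)).im)
    (fun x y => by
      rw [← neg_add, ← Complex.add_im, ← Finset.sum_add_distrib]
      congr 2
      refine Finset.sum_congr rfl fun s _ => ?_
      rw [map_add]
      ring)
    (fun x => ⟨-(∑ j, w1 j * rf A (X (b1 j * 1)) (X (b1 j * x))), by
      rw [← hone 1 x]
      push_cast
      rfl⟩)
  -- the values of `δ₁`
  have hval : ∀ s ∈ Φ, s δ₁ = ((H s / 2 : ℝ) : ℂ) * Complex.I := by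
    have hli : LinearIndependent ℂ (fun s : K →+* ℂ => (fun x : K => s x)) := by
      have h1 := linearIndependent_monoidHom K ℂ
      exact h1.comp (fun s : K →+* ℂ => (s : K →* ℂ)) (fun s s' h => by
        ext x
        exact DFunLike.congr_fun h x)
    let t : (K →+* ℂ) → ℂ := fun s => s δ₁ - (if s ∈ Φ then ((H s / 2 : ℝ) : ℂ) * Complex.I
      else -(((H (bar s) / 2 : ℝ) : ℂ) * Complex.I))
    have ht : ∑ s, t s • (fun x : K => s x) = 0 := by
      funext x
      rw [Finset.sum_apply, Pi.zero_apply]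
      have h1 : ∑ s : K →+* ℂ, s δ₁ * s x =
          ((-(∑ s ∈ Φ, s (1 : K) * conj (s 1) * s x * (H s : ℂ)).im : ℝ) : ℂ) := by
        have h2 := hδ₁ x
        rw [h2]
        rw [Complex.ofReal_ratCast, trace_sum]
        refine Finset.sum_congr rfl fun s _ => ?_
        rw [map_mul]
      have h3 : ∑ s : K →+* ℂ, (if s ∈ Φ then ((H s / 2 : ℝ) : ℂ) * Complex.I
          else -(((H (bar s) / 2 : ℝ) : ℂ) * Complex.I)) * s x =
          ((-(∑ s ∈ Φ, s (1 : K) * conj (s 1) * s x * (H s : ℂ)).im : ℝ) : ℂ) := by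
        rw [← Finset.sum_filter_add_sum_filter_not Finset.univ (fun s => s ∈ Φ)]
        have h4 : Finset.univ.filter (fun s : K →+* ℂ => s ∈ Φ) = Φ := by ext s; simp
        have h5 : ∑ s ∈ Finset.univ.filter (fun s : K →+* ℂ => s ∉ Φ),
            (if s ∈ Φ then ((H s / 2 : ℝ) : ℂ) * Complex.I
              else -(((H (bar s) / 2 : ℝ) : ℂ) * Complex.I)) * s x =
            ∑ s ∈ Φ, -(((H s / 2 : ℝ) : ℂ) * Complex.I) * bar s x := by
          refine Finset.sum_nbij' (fun s => bar s) (fun s => bar s) ?_ ?_ ?_ ?_ ?_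
          · intro s hs
            rw [Finset.mem_filter] at hs
            exact (hΦ s).2 hs.2
          · intro s hs
            rw [Finset.mem_filter]
            exact ⟨Finset.mem_univ _, fun h => (hΦ s).1 h hs⟩
          · intro s _
            exact bar_bar s
          · intro s _
            exact bar_bar s
          · intro s hs
            rw [Finset.mem_filter] at hs
            rw [if_neg hs.2, bar_bar]
        rw [h4, h5, Finset.sum_congr rfl fun s hs => by rw [if_pos hs], ← Finset.sum_add_distrib,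
          Complex.im_sum, ← Finset.sum_neg_distrib, Complex.ofReal_sum]
        refine Finset.sum_congr rfl fun s _ => ?_
        rw [map_one, map_one, one_mul, one_mul, bar_apply]
        apply Complex.ext
        · simp
          ring
        · simp
      have h6 : ∀ s : K →+* ℂ, (t s • fun x : K => s x) x = s δ₁ * s x -
          (if s ∈ Φ then ((H s / 2 : ℝ) : ℂ) * Complex.I
          else -(((H (bar s) / 2 : ℝ) : ℂ) * Complex.I)) * s x := by
        intro s
        simp only [t, Pi.smul_apply, smul_eq_mul]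
        ring
      rw [Finset.sum_congr rfl fun s _ => h6 s, Finset.sum_sub_distrib, h1, h3, sub_self]
    have h7 := Fintype.linearIndependent_iff.1 hli t ht
    intro s hs
    have h8 := h7 s
    simp only [t, if_pos hs] at h8
    exact sub_eq_zero.1 h8
  have hδ₁0 : δ₁ ≠ 0 := by
    obtain ⟨s⟩ : Nonempty (K →+* ℂ) := inferInstance
    have : ∃ s ∈ Φ, True := by
      by_cases hs : s ∈ Φ
      · exact ⟨s, hs, trivial⟩
      · exact ⟨bar s, (hΦ s).2 hs, trivial⟩
    obtain ⟨s, hs, -⟩ := this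
    intro h
    have h1 := hval s hs
    rw [h, map_zero] at h1
    have h2 := congrArg Complex.im h1
    simp at h2
    have h3 := hH0 s hs
    linarith
  -- the quotient
  have hq : ∀ s ∈ Φ, s (δ / δ₁) = ((2 * (s δ).im / H s : ℝ) : ℂ) := by
    intro s hs
    have h3 : conj (s δ) = -s δ := by rw [← hc, hδ, map_neg]
    have h4 : s δ = ((s δ).im : ℂ) * Complex.I := by
      apply Complex.ext
      · have := congrArg Complex.re h3
        rw [Complex.conj_re, Complex.neg_re] at this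
        simp
        linarith
      · simp
    have h5 : (H s : ℂ) ≠ 0 := by exact_mod_cast (hH0 s hs).ne'
    rw [map_div₀, hval s hs]
    conv_lhs => rw [h4]
    push_cast
    field_simp
  obtain ⟨n, b, w, hw, h1, h2⟩ := exists_diag hc (δ / δ₁) (fun s => by
    by_cases hs : s ∈ Φ
    · rw [hq s hs]
      refine ⟨?_, Complex.ofReal_im _⟩
      rw [Complex.ofReal_re]
      have := hδ' s hs
      have := hH0 s hs
      positivity
    · have hs' := (hΦ s).2 hs
      have h3 := hq (bar s) hs'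
      rw [bar_apply] at h3
      have h4 : s (δ / δ₁) = ((2 * (bar s δ).im / H (bar s) : ℝ) : ℂ) := by
        rw [← Complex.conj_conj (s (δ / δ₁)), h3, Complex.conj_ofReal]
      rw [h4]
      refine ⟨?_, Complex.ofReal_im _⟩
      rw [Complex.ofReal_re]
      have := hδ' _ hs'
      have := hH0 _ hs'
      positivity)
  refine ⟨n, b, w, hw, fun z z' => ?_⟩
  have h3 := hsum (δ / δ₁) n b w h1 h2 z z'
  have h4 := trace_im hc Φ hΦ hδ z z'
  have h5 : ∑ s ∈ Φ, s (δ / δ₁) * conj (s z) * s z' * (H s : ℂ) =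
      ∑ s ∈ Φ, ((2 * (s δ).im : ℝ) : ℂ) * (conj (s z) * s z') := by
    refine Finset.sum_congr rfl fun s hs => ?_
    have h5 : (H s : ℂ) ≠ 0 := by exact_mod_cast (hH0 s hs).ne'
    rw [hq s hs]
    push_cast
    field_simp
  rw [h5, ← h4] at h3
  exact_mod_cast h3

end Pool.Agent.Lib.MPf11a48.SH.POL
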