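import Pool.Agent.Lib.MP_f11a48_ag.SH.Spec
import Pool.Agent.Lib.MP_f11a48_ag.SH.POL.Avg

/-!
# MP_f11a48_ag, PROJECT S0, part POL
-/

set_option autoImplicit false

open Matrix ComplexConjugate
open Pool.Agent.Lib.MPf11a48.CM hiding OmegaM
open Pool.Agent.Lib.MPf11a48.GL2T
open Pool.Agent.Lib.MPf11a48.U
open Pool.Agent.Lib.MPf11a48.U.HDAM
open Pool.Agent.Lib.MPf11a48.CMS

namespace Pool.Agent.Lib.MPf11a48.SH

namespace POL

/-- rational coordinates are unique -/
theorem rat_inj {L : IntermediateField ℚ ℂ} {g N : ℕ} {A : AbData g N} (hA : A.IsAbVar L)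
    {x y : Ix g → ℚ} (h : ∑ l, ((x l : ℚ) : ℂ) • A.lat l = ∑ l, ((y l : ℚ) : ℂ) • A.lat l) :
    x = y := by
  have h1 := ind_real hA.lat_indep (x := fun l => ((x l : ℚ) : ℝ)) (y := fun l => ((y l : ℚ) : ℝ))
    (by simpa only [Complex.ofReal_ratCast] using h)
  funext l
  have := congrFun h1 l
  exact_mod_cast this

/-- the embeddings of a number field have values in `Qbar` -/
theorem emb_alg {K : Type} [Field K] [NumberField K] (s : K →+* ℂ) (x : K) : s x ∈ Qbar := by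
  rw [mem_algebraicClosure_iff]
  have h : IsAlgebraic ℚ x := Algebra.IsAlgebraic.isAlgebraic x
  exact h.algHom s.toRatAlgHom

end POL

open POL in
/-- **POL** -/
theorem specPOL : SpecPOL := by
  intro L g N A hL hA K _ _ bar V _ _ φ p ξ hbar hφ hne hall hcm hξ hpos
  classical
  obtain ⟨hp, y, hy0, hyQ, hlat⟩ := hcm
  choose X hX using hlat
  -- additivity of the coordinates
  have hadd : ∀ z z', X (z + z') = X z + X z' := by
    intro z z'
    apply rat_inj hA
    have h1 : ∑ l, (((X z + X z') l : ℚ) : ℂ) • A.lat l = (∑ l, ((X z l : ℚ) : ℂ) • A.lat l) +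
        ∑ l, ((X z' l : ℚ) : ℂ) • A.lat l := by
      rw [← Finset.sum_add_distrib]
      refine Finset.sum_congr rfl fun l _ => ?_
      rw [Pi.add_apply, Rat.cast_add, add_smul]
    rw [h1, ← hX, ← hX, ← hX, ← Finset.sum_add_distrib]
    refine Finset.sum_congr rfl fun v _ => ?_
    rw [map_add, mul_add, add_smul]
  let Xl : K →ₗ[ℚ] (Ix g → ℚ) := (AddMonoidHom.mk' X hadd).toRatLinearMap
  have hXl : ∀ z, Xl z = X z := fun _ => rfl
  -- the CM type
  let Φ : Finset (K →+* ℂ) := Finset.univ.image φ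
  have hΦ : ∀ s, POL.bar s ∈ Φ ↔ s ∉ Φ := by
    intro s
    constructor
    · intro h1 h2
      obtain ⟨v, -, hv⟩ := Finset.mem_image.1 h1
      obtain ⟨w, -, hw⟩ := Finset.mem_image.1 h2
      apply hne v w
      rw [hv, hw]
      rfl
    · intro h1
      obtain ⟨v, hv | hv⟩ := hall s
      · exact absurd (Finset.mem_image.2 ⟨v, Finset.mem_univ _, hv.symm⟩) h1
      · refine Finset.mem_image.2 ⟨v, Finset.mem_univ _, ?_⟩
        rw [hv]
        exact (bar_bar (φ v)).symm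
  let Y : (K →+* ℂ) → Fin g → ℂ := Function.extend φ (fun v => p v • y v) 0
  have hYφ : ∀ v, Y (φ v) = p v • y v := fun v => hφ.extend_apply _ _ v
  have hYs : ∀ z, ∑ s ∈ Φ, s z • Y s = ∑ m, (X z m : ℂ) • A.lat m := by
    intro z
    rw [Finset.sum_image fun v _ w _ h => hφ h, ← hX]
    refine Finset.sum_congr rfl fun v _ => ?_
    rw [hYφ, smul_smul, mul_comm]
  have hY0 : ∀ s ∈ Φ, Y s ≠ 0 := by
    intro s hs
    obtain ⟨v, -, rfl⟩ := Finset.mem_image.1 hs
    rw [hYφ]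
    exact smul_ne_zero (hp v) (hy0 v)
  obtain ⟨k, b, w, hw, hsum⟩ := avg (c := (bar : K →+* K)) hbar hA Φ hΦ Y hY0 X hYs ξ hξ (by
    intro s hs
    obtain ⟨v, -, rfl⟩ := Finset.mem_image.1 hs
    exact hpos v)
  refine ⟨k, fun j => Matrix.of fun r v => φ v (b j) * y v r,
    fun j => Xl ∘ₗ LinearMap.mulLeft ℚ (b j), w, ?_, hw, ?_, ?_⟩
  · intro j r s
    exact mul_mem (emb_alg (φ s) (b j)) (hyQ s r)
  · intro j z
    have h1 : ∀ l, ((Xl ∘ₗ LinearMap.mulLeft ℚ (b j)) z) l = X (b j * z) l := fun _ => rfl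
    simp only [h1]
    rw [← hX]
    funext r
    rw [Matrix.mulVec, dotProduct, Finset.sum_apply]
    refine Finset.sum_congr rfl fun v _ => ?_
    rw [Matrix.of_apply, Pi.smul_apply, smul_eq_mul, map_mul]
    ring
  · intro z z'
    have h1 := hsum z z'
    have h2 : ∀ j, ((Xl ∘ₗ LinearMap.mulLeft ℚ (b j)) z ⬝ᵥ
        (A.E.map (fun x => (x : ℚ)) *ᵥ (Xl ∘ₗ LinearMap.mulLeft ℚ (b j)) z')) =
        rf A (X (b j * z)) (X (b j * z')) := by
      intro j
      change X (b j * z) ⬝ᵥ (A.E.map (fun x => (x : ℚ)) *ᵥ X (b j * z')) = _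
      simp only [dotProduct, Matrix.mulVec, Matrix.map_apply, Finset.mul_sum, mul_assoc, rf]
    simp only [h2]
    rw [h1, mul_assoc]
    rfl

end Pool.Agent.Lib.MPf11a48.SH
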